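import Pool.Agent.Helper53.Pq.Goals

/-!
# Two scalar inequalities in `θ ∈ [1/6, 1/4]`
-/

namespace Pool.Agent.Helper67.Pq

open Pool.Agent.Helper53.Pq

theorem v_mem {θ v : ℝ} (h1 : 1 / 6 ≤ θ) (h2 : θ ≤ 1 / 4)
    (hv1 : 0.01207 - 0.1566 * θ + 2.2033 * θ ^ 2 ≤ v)
    (hv2 : v ≤ 0.01218 - 0.1566 * θ + 2.2033 * θ ^ 2) : 0.047 ≤ v ∧ v ≤ 0.111 := by
  have h3 := mul_nonneg (sub_nonneg.2 h1) (sub_nonneg.2 h2)
  constructor
  · nlinarith
  · nlinarith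

theorem log_up {y : ℝ} (h : |y| ≤ 0.1351) :
    Real.log (1 + y) ≤ y - y ^ 2 / 2 + y ^ 3 / 3 + 0.0004 := by
  have hlt : |(-y)| < 1 := by
    rw [abs_neg]
    linarith
  have h1 := Real.abs_log_sub_add_sum_range_le hlt 3
  rw [abs_neg, sub_neg_eq_add] at h1
  simp only [Finset.sum_range_succ, Finset.sum_range_zero] at h1
  have h2 := (abs_le.1 h1).2
  have h0 := abs_nonneg y
  have h3 : |y| ^ (3 + 1) / (1 - |y|) ≤ 0.0004 := by
    rw [div_le_iff₀ (by linarith)]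
    have h4 : |y| ^ 2 ≤ 0.1351 ^ 2 := by nlinarith
    have h5 : |y| ^ (3 + 1) = (|y| ^ 2) ^ 2 := by ring
    rw [h5]
    nlinarith [sq_nonneg (|y|)]
  push_cast at h2
  nlinarith

theorem log_72 : 0.3284 ≤ -Real.log 0.72 := by
  have hlt : |(0.28 : ℝ)| < 1 := by
    rw [abs_of_pos (by norm_num)]
    norm_num
  have h1 := Real.abs_log_sub_add_sum_range_le hlt 8
  have h2 := (abs_le.1 h1).2
  have h3 : (1 : ℝ) - 0.28 = 0.72 := by norm_num
  rw [abs_of_pos (by norm_num : (0 : ℝ) < 0.28), h3] at h2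
  simp only [Finset.sum_range_succ, Finset.sum_range_zero] at h2
  push_cast at h2
  norm_num at h2 ⊢
  linarith

theorem log_HH {θ : ℝ} (h1 : 1 / 6 ≤ θ) (h2 : θ ≤ 1 / 4) {y : ℝ}
    (hy : y = (1.1835 - 2.2 * θ) * (25 / 18) - 1) :
    0.3280 - y + y ^ 2 / 2 - y ^ 3 / 3 ≤ -Real.log (HH θ) := by
  have h3 : HH θ = 0.72 * (1 + y) := by
    unfold HH
    rw [hy]
    ring_nf
  have hy1 : -0.1202 ≤ y := by
    rw [hy]
    linarith
  have hy2 : y ≤ 0.1351 := by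
    rw [hy]
    linarith
  have h4 : |y| ≤ 0.1351 := abs_le.2 ⟨by linarith, hy2⟩
  have h5 := log_up h4
  rw [h3, Real.log_mul (by norm_num) (by linarith)]
  have h6 := log_72
  linarith

theorem hEa {θ : ℝ} (h1 : 1 / 6 ≤ θ) (h2 : θ ≤ 1 / 4) :
    0 ≤ 1.85265 - 3.141593 / 2 * (1.00055 + 0.6853 * θ + 0.2776 * θ ^ 2) +
      0.75828 * (0.01207 - 0.1566 * θ + 2.2033 * θ ^ 2) := by nlinarith

theorem hEb {θ : ℝ} (h1 : 1 / 6 ≤ θ) (h2 : θ ≤ 1 / 4) :
    0 ≤ 1.85293 - 3.141592 / 2 * (1.00052 + 0.6853 * θ + 0.2776 * θ ^ 2) +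
      0.78316 * (0.01218 - 0.1566 * θ + 2.2033 * θ ^ 2) := by nlinarith

theorem hLa {y : ℝ} (hy2 : y ≤ 0.1351) : 0 ≤ 0.2160 - y + y ^ 2 / 2 - y ^ 3 / 3 := by
  nlinarith [sq_nonneg y, mul_nonneg (sq_nonneg y) (sub_nonneg.2 hy2)]

theorem hta {θ : ℝ} (h1 : 1 / 6 ≤ θ) : 0 ≤ 1.00052 + 0.6853 * θ + 0.2776 * θ ^ 2 := by
  have h2 : 0 ≤ θ := by linarith
  positivity

theorem hva2 {v : ℝ} (hva : 0.047 ≤ v) (hvb : v ≤ 0.111) : v ^ 2 ≤ 0.158 * v - 0.005217 := by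
  nlinarith [mul_nonneg (sub_nonneg.2 hva) (sub_nonneg.2 hvb)]

theorem hvb2 (v : ℝ) : 0.22 * v - 0.0121 ≤ v ^ 2 := by nlinarith [sq_nonneg (v - 0.11)]

theorem hq0' {v : ℝ} (hva : 0.047 ≤ v) (hvb : v ≤ 0.111) : 0 ≤ 1 + v / 2 - v ^ 2 / 8 := by
  nlinarith

theorem hq' {v : ℝ} (hva : 0.047 ≤ v) (hvb : v ≤ 0.111) :
    (1 + v / 2 - v ^ 2 / 8) ^ 2 ≤ 1 + v := by
  have h4 : 0 ≤ v ^ 3 * (8 - v) := mul_nonneg (pow_nonneg (by linarith) 3) (by linarith)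
  linarith [show (1 + v / 2 - v ^ 2 / 8) ^ 2 = 1 + v - v ^ 3 * (8 - v) / 64 by ring]

/-- The polynomial inequality for `GIa`. -/
theorem polA {θ : ℝ} (h1 : 1 / 6 ≤ θ) (h2 : θ ≤ 1 / 4) :
    3.141593 / 8 * (1.00055 + 0.6853 * θ + 0.2776 * θ ^ 2) <
      (0.42055 + 0.21528 * (0.01207 - 0.1566 * θ + 2.2033 * θ ^ 2)) +
      (0.2160 - ((1.1835 - 2.2 * θ) * (25 / 18) - 1) +
        ((1.1835 - 2.2 * θ) * (25 / 18) - 1) ^ 2 / 2 -
        ((1.1835 - 2.2 * θ) * (25 / 18) - 1) ^ 3 / 3) *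
      (1.85265 - 3.141593 / 2 * (1.00055 + 0.6853 * θ + 0.2776 * θ ^ 2) +
        0.75828 * (0.01207 - 0.1566 * θ + 2.2033 * θ ^ 2)) := by
  obtain ⟨s, hs, hs0, hs1⟩ : ∃ s : ℝ, θ = 1 / 6 + s / 12 ∧ 0 ≤ s ∧ s ≤ 1 :=
    ⟨12 * (θ - 1 / 6), by ring, by linarith, by linarith⟩
  subst hs
  rw [← sub_pos]
  have h3 : 0 ≤ 1 - s := by linarith
  have h4 : 0 < s ∨ 0 < 1 - s := by
    rcases le_or_gt s 0 with h | h
    · right
      linarith
    · left
      exact h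
  refine lt_of_lt_of_eq (b := 49990980372841411807 / 43535646720000000000000 *
        (s ^ 0 * (1 - s) ^ 5) +
      10037901196665984079 / 773967052800000000000 *
        (s ^ 1 * (1 - s) ^ 4) +
      309356399607953604953 / 9674588160000000000000 *
        (s ^ 2 * (1 - s) ^ 3) +
      49445963727761811449 / 1612431360000000000000 *
        (s ^ 3 * (1 - s) ^ 2) +
      4078549752871413787 / 358318080000000000000 *
        (s ^ 4 * (1 - s) ^ 1) +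
      658761890912483879 / 716636160000000000000 *
        (s ^ 5 * (1 - s) ^ 0)) ?_ (by ring)
  rcases h4 with h4 | h4 <;> positivity

theorem gIa : GIa := by
  intro hnum θ h1 h2
  obtain ⟨hv1, hv2, ht1, ht2, -, -⟩ := hnum.1 θ h1 h2
  have hp1 := Real.pi_gt_d6
  have hp2 := Real.pi_lt_d6
  obtain ⟨hva, hvb⟩ := v_mem h1 h2 hv1 hv2
  have hlog := log_HH h1 h2 rfl
  have hpol := polA h1 h2
  have hll : -0.112 - Real.log (HH θ) = -Real.log (HH θ) - 0.112 := by ring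
  rw [hll]
  unfold LLlo E2lo
  generalize vv θ = v at *
  generalize (2 : ℝ) ^ θ = t at *
  generalize -Real.log (HH θ) = l at *
  have hvv := hva2 hva hvb
  have ht0 : 0 ≤ t := le_trans (hta h1) ht1
  have e0 : Real.pi * t ≤ 3.141593 * (1.00055 + 0.6853 * θ + 0.2776 * θ ^ 2) :=
    mul_le_mul hp2.le ht2 ht0 (by norm_num)
  have e2 : 3.141592 * v ≤ Real.pi * v := mul_le_mul_of_nonneg_right hp1.le (by linarith)
  -- the second factor
  have hE : 1.85265 - 3.141593 / 2 * (1.00055 + 0.6853 * θ + 0.2776 * θ ^ 2) +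
      0.75828 * (0.01207 - 0.1566 * θ + 2.2033 * θ ^ 2) ≤
      1.85176 - Real.pi / 2 * t + Real.pi / 4 * v - 0.1716 * v ^ 2 := by
    linarith
  have hE0 := hEa h1 h2
  have hL0 := hLa (y := (1.1835 - 2.2 * θ) * (25 / 18) - 1) (by linarith)
  have hM := mul_le_mul (show 0.2160 - ((1.1835 - 2.2 * θ) * (25 / 18) - 1) +
        ((1.1835 - 2.2 * θ) * (25 / 18) - 1) ^ 2 / 2 -
        ((1.1835 - 2.2 * θ) * (25 / 18) - 1) ^ 3 / 3 ≤ l - 0.112 by linarith) hE hE0 (by linarith)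
  linarith

/-- The one-variable inequality in `v` for `GIb`. -/
theorem polG {v : ℝ} (h1 : 0.047 ≤ v) (h2 : v ≤ 0.111) :
    0.0465 - 0.044 * v < 0.5547 * ((0.3276 - 0.525 * v) * (1 + v / 2 - v ^ 2 / 8) *
      (0.3133 - 0.18077 * (0.3276 - 0.525 * v))) := by
  obtain ⟨s, hs, hs0, hs1⟩ : ∃ s : ℝ, v = 47 / 1000 + 64 / 1000 * s ∧ 0 ≤ s ∧ s ≤ 1 :=
    ⟨1000 / 64 * (v - 47 / 1000), by ring, by linarith, by linarith⟩
  subst hs
  rw [← sub_pos]
  have h3 : 0 ≤ 1 - s := by linarith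
  have h4 : 0 < s ∨ 0 < 1 - s := by
    rcases le_or_gt s 0 with h | h
    · right
      linarith
    · left
      exact h
  refine lt_of_lt_of_eq (b := 257051305119895974119 / 12800000000000000000000000 *
        (s ^ 0 * (1 - s) ^ 4) +
      1176289989955642295079 / 3200000000000000000000000 *
        (s ^ 1 * (1 - s) ^ 3) +
      4643337509721950752821 / 6400000000000000000000000 *
        (s ^ 2 * (1 - s) ^ 2) +
      1366421851667968817063 / 3200000000000000000000000 *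
        (s ^ 3 * (1 - s) ^ 1) +
      627862937896064375271 / 12800000000000000000000000 *
        (s ^ 4 * (1 - s) ^ 0)) ?_ (by ring)
  rcases h4 with h4 | h4 <;> positivity

/-- The polynomial inequality for `GIb`. -/
theorem polB {θ : ℝ} (h1 : 1 / 6 ≤ θ) (h2 : θ ≤ 1 / 4) :
    0.89215 * ((1.1835 - 2.2 * θ) * (3 / 4 + 0.39464 * (1.1835 - 2.2 * θ))) *
      (1.85293 - 3.141592 / 2 * (1.00052 + 0.6853 * θ + 0.2776 * θ ^ 2) +
        0.78316 * (0.01218 - 0.1566 * θ + 2.2033 * θ ^ 2)) <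
    3.195 * (0.0827 - 0.4639 * θ + 0.5311 * θ ^ 2) +
      (0.0465 - 0.044 * (0.01218 - 0.1566 * θ + 2.2033 * θ ^ 2)) := by
  obtain ⟨s, hs, hs0, hs1⟩ : ∃ s : ℝ, θ = 1 / 6 + s / 12 ∧ 0 ≤ s ∧ s ≤ 1 :=
    ⟨12 * (θ - 1 / 6), by ring, by linarith, by linarith⟩
  subst hs
  rw [← sub_pos]
  have h3 : 0 ≤ 1 - s := by linarith
  have h4 : 0 < s ∨ 0 < 1 - s := by
    rcases le_or_gt s 0 with h | h
    · right
      linarith
    · left
      exact h
  refine lt_of_lt_of_eq (b := 9766786544745123279981949 / 1012500000000000000000000000 *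
        (s ^ 0 * (1 - s) ^ 4) +
      17602245556110147519634601 / 450000000000000000000000000 *
        (s ^ 1 * (1 - s) ^ 3) +
      42713043953291668673135413 / 900000000000000000000000000 *
        (s ^ 2 * (1 - s) ^ 2) +
      1421684003511148575096281 / 75000000000000000000000000 *
        (s ^ 3 * (1 - s) ^ 1) +
      86077319336285022369097 / 100000000000000000000000000 *
        (s ^ 4 * (1 - s) ^ 0)) ?_ (by ring)
  rcases h4 with h4 | h4 <;> positivity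

theorem rpow_up {H : ℝ} (hH : 0 < H) :
    H ^ (1.25 : ℝ) ≤ 0.89215 * (H * (3 / 4 + 0.39464 * H)) := by
  have h1 : H ^ (1.25 : ℝ) = H * H ^ (1 / 4 : ℝ) := by
    rw [show (1.25 : ℝ) = 1 + 1 / 4 by norm_num, Real.rpow_add hH, Real.rpow_one]
  have ha : (0 : ℝ) < 0.89215 ^ 4 := by norm_num
  have h2 : (H / 0.89215 ^ 4) ^ (1 / 4 : ℝ) ≤ 1 + 1 / 4 * (H / 0.89215 ^ 4 - 1) := by
    have h3 := rpow_one_add_le_one_add_mul_self (s := H / 0.89215 ^ 4 - 1)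
      (p := 1 / 4) (by linarith [div_pos hH ha]) (by norm_num) (by norm_num)
    rwa [add_sub_cancel] at h3
  have h4 : H ^ (1 / 4 : ℝ) = 0.89215 * (H / 0.89215 ^ 4) ^ (1 / 4 : ℝ) := by
    rw [Real.div_rpow hH.le ha.le]
    have h5 : ((0.89215 : ℝ) ^ 4) ^ (1 / 4 : ℝ) = 0.89215 := by
      rw [← Real.rpow_natCast, ← Real.rpow_mul (by norm_num)]
      norm_num
    rw [h5]
    field_simp
  rw [h1, h4]
  have h6 : H / 0.89215 ^ 4 ≤ 1.57856 * H := by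
    rw [div_le_iff₀ ha]
    nlinarith
  have h7 : 0.89215 * (H / 0.89215 ^ 4) ^ (1 / 4 : ℝ) ≤ 0.89215 * (3 / 4 + 0.39464 * H) := by
    linarith
  calc H * (0.89215 * (H / 0.89215 ^ 4) ^ (1 / 4 : ℝ)) ≤
        H * (0.89215 * (3 / 4 + 0.39464 * H)) := mul_le_mul_of_nonneg_left h7 hH.le
    _ = 0.89215 * (H * (3 / 4 + 0.39464 * H)) := by ring

theorem gIb : GIb := by
  intro hnum θ h1 h2
  obtain ⟨hv1, hv2, ht1, ht2, hd1, hd2⟩ := hnum.1 θ h1 h2
  have hp1 := Real.pi_gt_d6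
  have hp2 := Real.pi_lt_d6
  obtain ⟨hva, hvb⟩ := v_mem h1 h2 hv1 hv2
  have hpol := polB h1 h2
  have hH0 : 0 < HH θ := by
    unfold HH
    linarith
  have hH := rpow_up hH0
  have hHH : HH θ = 1.1835 - 2.2 * θ := rfl
  have hR0 : 0 ≤ HH θ ^ (1.25 : ℝ) := Real.rpow_nonneg hH0.le _
  rw [hHH] at hH hH0 hR0 ⊢
  unfold E2hi cA
  generalize √((1 + vv θ) / 2) - √(Real.pi / 8) * (2 : ℝ) ^ θ = D at *
  generalize vv θ = v at *
  generalize (2 : ℝ) ^ θ = t at *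
  generalize (1.1835 - 2.2 * θ : ℝ) ^ (1.25 : ℝ) = R at *
  have ht0 : 0 ≤ t := le_trans (hta h1) ht1
  have htl := hta h1
  -- first part of the right side
  have hs1 : 3.195 ≤ √(3.25 * Real.pi) := by
    apply Real.le_sqrt_of_sq_le
    norm_num
    linarith
  have hr1 : 3.195 * (0.0827 - 0.4639 * θ + 0.5311 * θ ^ 2) ≤ √(3.25 * Real.pi) * D := by
    have h3 : 3.195 * D ≤ √(3.25 * Real.pi) * D := mul_le_mul_of_nonneg_right hs1 hd2
    linarith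
  -- second part
  have hw0 : 0 < √(3.25 : ℝ) := Real.sqrt_pos.2 (by norm_num)
  have hw1 : √(3.25 : ℝ) ≤ 1.802776 := by
    rw [Real.sqrt_le_left (by norm_num)]
    norm_num
  have hq : 1 + v / 2 - v ^ 2 / 8 ≤ √(1 + v) := by
    apply Real.le_sqrt_of_sq_le
    exact hq' hva hvb
  have hq0 := hq0' hva hvb
  have hratio : 0.5547 * (1 + v / 2 - v ^ 2 / 8) ≤ √(1 + v) / √3.25 := by
    rw [le_div_iff₀ hw0]
    calc 0.5547 * (1 + v / 2 - v ^ 2 / 8) * √3.25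
        = (0.5547 * √3.25) * (1 + v / 2 - v ^ 2 / 8) := by ring
      _ ≤ 1 * (1 + v / 2 - v ^ 2 / 8) := mul_le_mul_of_nonneg_right (by linarith) hq0
      _ ≤ √(1 + v) := by linarith
  have hcc : (0.3276 - 0.525 * v) * (0.3133 - 0.18077 * (0.3276 - 0.525 * v)) ≤
      (0.3276 - 0.525 * v) * (0.3133 - 0.5875 / 3.25 * (0.3276 - 0.525 * v)) := by
    apply mul_le_mul_of_nonneg_left _ (by linarith)
    have h5 : (0.5875 / 3.25 : ℝ) ≤ 0.18077 := by norm_num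
    have h6 := mul_le_mul_of_nonneg_right h5 (show 0 ≤ 0.3276 - 0.525 * v by linarith)
    linarith
  have hcc0 : 0 ≤ (0.3276 - 0.525 * v) * (0.3133 - 0.18077 * (0.3276 - 0.525 * v)) :=
    mul_nonneg (by linarith) (by linarith)
  have hr2 : 0.0465 - 0.044 * v < 0.3133 * (0.3276 - 0.525 * v) * √(1 + v) / √3.25 -
      0.5875 * (0.3276 - 0.525 * v) ^ 2 * √(1 + v) / (3.25 * √3.25) := by
    have h7 : 0.3133 * (0.3276 - 0.525 * v) * √(1 + v) / √3.25 -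
        0.5875 * (0.3276 - 0.525 * v) ^ 2 * √(1 + v) / (3.25 * √3.25) = √(1 + v) / √3.25 *
        ((0.3276 - 0.525 * v) * (0.3133 - 0.5875 / 3.25 * (0.3276 - 0.525 * v))) := by
      field_simp
    rw [h7]
    have h8 := mul_le_mul hratio hcc hcc0 (le_trans (by positivity) hratio)
    have h9 := polG hva hvb
    calc 0.0465 - 0.044 * v < 0.5547 * ((0.3276 - 0.525 * v) * (1 + v / 2 - v ^ 2 / 8) *
          (0.3133 - 0.18077 * (0.3276 - 0.525 * v))) := h9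
      _ = 0.5547 * (1 + v / 2 - v ^ 2 / 8) *
          ((0.3276 - 0.525 * v) * (0.3133 - 0.18077 * (0.3276 - 0.525 * v))) := by ring
      _ ≤ _ := h8
  -- left side
  have e0 : 3.141592 * (1.00052 + 0.6853 * θ + 0.2776 * θ ^ 2) ≤ Real.pi * t :=
    mul_le_mul hp1.le ht1 htl Real.pi_pos.le
  have e2 : Real.pi * v ≤ 3.141593 * v := mul_le_mul_of_nonneg_right hp2.le (by linarith)
  have e3 := hvb2 v
  have hE : 1.8528 - Real.pi / 2 * t + Real.pi / 4 * v - 0.0102 * v ^ 2 ≤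
      1.85293 - 3.141592 / 2 * (1.00052 + 0.6853 * θ + 0.2776 * θ ^ 2) +
        0.78316 * (0.01218 - 0.1566 * θ + 2.2033 * θ ^ 2) := by
    linarith
  have hE0 := hEb h1 h2
  have f1 := mul_le_mul_of_nonneg_left hE hR0
  have f2 := mul_le_mul_of_nonneg_right hH hE0
  linarith

end Pool.Agent.Helper67.Pq
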